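import Pool.Agent.Helper71.E5.Defs

/-! MP_efd95c: cyclic lists of indices; next and previous index of a set in a cyclic order. -/

set_option autoImplicit false

noncomputable section

namespace E5

/-- `l` is the successor of `k` among the integers with `g k ∈ S` -/
def Nx {n : ℕ} (g : ℤ → Fin n) (S : Finset (Fin n)) (k l : ℤ) : Prop :=
  k < l ∧ g k ∈ S ∧ g l ∈ S ∧ ∀ j, k < j → j < l → g j ∉ S

/-- cyclic order of the touching indices -/
structure Cyc {n : ℕ} (M : ℕ) (g : ℤ → Fin n) : Prop where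
  pos : 1 ≤ M
  per : ∀ k, g (k + M) = g k
  inj : ∀ k l, g k = g l → (M : ℤ) ∣ l - k

theorem HD.cyc {n : ℕ} {c : Fin n → ℂ} {M : ℕ} {g : ℤ → Fin n} {a b : ℤ → ℝ}
    (h : HD c M g a b) : Cyc M g :=
  ⟨by have := h.two; omega, h.gper, h.ginj⟩

variable {n M : ℕ} {g : ℤ → Fin n} {S : Finset (Fin n)}

theorem Cyc.per_mul (h : Cyc M g) (k t : ℤ) : g (k + t * M) = g k := by
  induction t using Int.induction_on with
  | zero => simp
  | succ i ih =>
    have e : k + ((i : ℤ) + 1) * M = (k + (i : ℤ) * M) + M := by ring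
    rw [e, h.per, ih]
  | pred i ih =>
    have e : k + (-(i : ℤ) - 1) * M + M = k + (-(i : ℤ)) * M := by ring
    rw [← h.per, e, ih]

theorem Nx.shift (h : Cyc M g) {k l : ℤ} (hN : Nx g S k l) (t : ℤ) :
    Nx g S (k + t * M) (l + t * M) := by
  obtain ⟨h1, h2, h3, h4⟩ := hN
  refine ⟨by omega, by rw [h.per_mul]; exact h2, by rw [h.per_mul]; exact h3, ?_⟩
  intro j hj1 hj2
  have h5 := h4 (j + (-t) * M) (by linarith) (by linarith)
  rw [h.per_mul] at h5
  exact h5

theorem Nx.unique {k l l' : ℤ} (h1 : Nx g S k l) (h2 : Nx g S k l') : l = l' := by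
  rcases lt_trichotomy l l' with h | h | h
  · exact absurd h1.2.2.1 (h2.2.2.2 l h1.1 h)
  · exact h
  · exact absurd h2.2.2.1 (h1.2.2.2 l' h2.1 h)

theorem Nx.unique' {k k' l : ℤ} (h1 : Nx g S k l) (h2 : Nx g S k' l) : k = k' := by
  rcases lt_trichotomy k k' with h | h | h
  · exact absurd h2.2.1 (h1.2.2.2 k' h h2.1)
  · exact h
  · exact absurd h1.2.1 (h2.2.2.2 k h h1.1)

theorem nx_ex (h : Cyc M g) {k : ℤ} (hk : g k ∈ S) : ∃ l, Nx g S k l ∧ l ≤ k + M := by
  classical
  have hM := h.pos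
  have hex : ∃ m : ℕ, g (k + 1 + m) ∈ S := by
    refine ⟨M - 1, ?_⟩
    have e : k + 1 + ((M - 1 : ℕ) : ℤ) = k + M := by omega
    rw [e, h.per]
    exact hk
  have hle : Nat.find hex ≤ M - 1 := by
    apply Nat.find_min'
    have e : k + 1 + ((M - 1 : ℕ) : ℤ) = k + M := by omega
    rw [e, h.per]
    exact hk
  refine ⟨k + 1 + Nat.find hex, ⟨by omega, hk, Nat.find_spec hex, ?_⟩, by omega⟩
  intro j hj1 hj2 hj3
  obtain ⟨m, hm⟩ : ∃ m : ℕ, j = k + 1 + m := ⟨(j - k - 1).toNat, by omega⟩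
  rw [hm] at hj3 hj2
  exact Nat.find_min hex (m := m) (by omega) hj3

theorem pv_ex (h : Cyc M g) {l : ℤ} (hl : g l ∈ S) : ∃ k, Nx g S k l ∧ l ≤ k + M := by
  classical
  have hM := h.pos
  have hgM : g (l - 1 - ((M - 1 : ℕ) : ℤ)) = g l := by
    have e : l - 1 - ((M - 1 : ℕ) : ℤ) + M = l := by omega
    rw [← h.per, e]
  have hex : ∃ m : ℕ, g (l - 1 - m) ∈ S := ⟨M - 1, by rw [hgM]; exact hl⟩
  have hle : Nat.find hex ≤ M - 1 := by
    apply Nat.find_min'
    rw [hgM]
    exact hl
  refine ⟨l - 1 - Nat.find hex, ⟨by omega, Nat.find_spec hex, hl, ?_⟩, by omega⟩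
  intro j hj1 hj2 hj3
  obtain ⟨m, hm⟩ : ∃ m : ℕ, j = l - 1 - m := ⟨(l - 1 - j).toNat, by omega⟩
  rw [hm] at hj3 hj1
  exact Nat.find_min hex (m := m) (by omega) hj3

/-- next index of `S` -/
def nxF (g : ℤ → Fin n) (S : Finset (Fin n)) (i : Fin n) : Fin n :=
  open Classical in
  if h : ∃ k l, g k = i ∧ Nx g S k l then g h.choose_spec.choose else i

/-- previous index of `S` -/
def pvF (g : ℤ → Fin n) (S : Finset (Fin n)) (i : Fin n) : Fin n :=
  open Classical in
  if h : ∃ l k, g l = i ∧ Nx g S k l then g h.choose_spec.choose else i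

theorem nxF_eq (h : Cyc M g) {k l : ℤ} (hN : Nx g S k l) : nxF g S (g k) = g l := by
  have hex : ∃ k' l', g k' = g k ∧ Nx g S k' l' := ⟨k, l, rfl, hN⟩
  unfold nxF
  rw [dif_pos hex]
  obtain ⟨h1, h2⟩ := hex.choose_spec.choose_spec
  obtain ⟨t, ht⟩ := h.inj _ _ h1
  have h3 := h2.shift h t
  have e : hex.choose + t * M = k := by linarith
  rw [e] at h3
  rw [← h3.unique hN, h.per_mul]

theorem pvF_eq (h : Cyc M g) {k l : ℤ} (hN : Nx g S k l) : pvF g S (g l) = g k := by
  have hex : ∃ l' k', g l' = g l ∧ Nx g S k' l' := ⟨l, k, rfl, hN⟩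
  unfold pvF
  rw [dif_pos hex]
  obtain ⟨h1, h2⟩ := hex.choose_spec.choose_spec
  obtain ⟨t, ht⟩ := h.inj _ _ h1
  have h3 := h2.shift h t
  have e : hex.choose + t * M = l := by linarith
  rw [e] at h3
  rw [← h3.unique' hN, h.per_mul]

/-- `S` consists of touching indices -/
def InG (g : ℤ → Fin n) (S : Finset (Fin n)) : Prop := ∀ i ∈ S, ∃ k, g k = i

theorem nxF_mem (h : Cyc M g) (hS : InG g S) {i : Fin n} (hi : i ∈ S) : nxF g S i ∈ S := by
  obtain ⟨k, rfl⟩ := hS i hi
  obtain ⟨l, hl, -⟩ := nx_ex h hi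
  rw [nxF_eq h hl]
  exact hl.2.2.1

theorem pvF_mem (h : Cyc M g) (hS : InG g S) {i : Fin n} (hi : i ∈ S) : pvF g S i ∈ S := by
  obtain ⟨k, rfl⟩ := hS i hi
  obtain ⟨l, hl, -⟩ := pv_ex h hi
  rw [pvF_eq h hl]
  exact hl.2.1

theorem pvF_nxF (h : Cyc M g) (hS : InG g S) {i : Fin n} (hi : i ∈ S) :
    pvF g S (nxF g S i) = i := by
  obtain ⟨k, rfl⟩ := hS i hi
  obtain ⟨l, hl, -⟩ := nx_ex h hi
  rw [nxF_eq h hl, pvF_eq h hl]

theorem nxF_pvF (h : Cyc M g) (hS : InG g S) {i : Fin n} (hi : i ∈ S) :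
    nxF g S (pvF g S i) = i := by
  obtain ⟨k, rfl⟩ := hS i hi
  obtain ⟨l, hl, -⟩ := pv_ex h hi
  rw [pvF_eq h hl, nxF_eq h hl]

theorem sum_pvF {E : Type} [AddCommMonoid E] (h : Cyc M g) (hS : InG g S)
    (f : Fin n → Fin n → E) : ∑ i ∈ S, f (pvF g S i) i = ∑ i ∈ S, f i (nxF g S i) := by
  refine Finset.sum_nbij' (fun i => pvF g S i) (fun i => nxF g S i) ?_ ?_ ?_ ?_ ?_
  · intro i hi
    exact pvF_mem h hS hi
  · intro i hi
    exact nxF_mem h hS hi
  · intro i hi
    exact nxF_pvF h hS hi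
  · intro i hi
    exact pvF_nxF h hS hi
  · intro i hi
    rw [nxF_pvF h hS hi]

/-! ### sums over one period -/

theorem sum_filter_list {E : Type} [AddCommMonoid E] (P : ℕ → Prop) [DecidablePred P]
    (F : ℕ → E) (m : ℕ) : ∑ k ∈ Finset.range m, (if P k then F k else 0) =
      (((List.range m).filter (fun k => decide (P k))).map F).sum := by
  induction m with
  | zero => simp
  | succ m ih =>
    rw [Finset.sum_range_succ, ih, List.range_succ, List.filter_append, List.map_append,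
      List.sum_append]
    congr 1
    by_cases hP : P m
    · simp [hP]
    · simp [hP]

/-- a sum over one period is a sum over `S` -/
theorem sum_period {E : Type} [AddCommMonoid E] (h : Cyc M g) (hS : InG g S) (F : Fin n → E) :
    ∑ k ∈ Finset.range M, (if g (k : ℤ) ∈ S then F (g (k : ℤ)) else 0) = ∑ i ∈ S, F i := by
  classical
  have hM := h.pos
  rw [← Finset.sum_filter]
  refine Finset.sum_nbij (fun k : ℕ => g (k : ℤ)) ?_ ?_ ?_ ?_
  · intro k hk
    exact (Finset.mem_filter.1 hk).2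
  · intro k hk l hl hkl
    have hk1 := Finset.mem_range.1 (Finset.mem_filter.1 hk).1
    have hl1 := Finset.mem_range.1 (Finset.mem_filter.1 hl).1
    obtain ⟨t, ht⟩ := h.inj _ _ hkl
    have hM' : (0 : ℤ) < M := by exact_mod_cast hM
    have h1 : (l : ℤ) - k < M := by omega
    have h2 : -(M : ℤ) < (l : ℤ) - k := by omega
    have t1 : t < 1 := by
      by_contra hh
      rw [not_lt] at hh
      nlinarith
    have t2 : -1 < t := by
      by_contra hh
      rw [not_lt] at hh
      nlinarith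
    have t0 : t = 0 := by omega
    rw [t0] at ht
    omega
  · intro i hi
    obtain ⟨k, hk⟩ := hS i hi
    have hM' : (0 : ℤ) < M := by exact_mod_cast hM
    have h1 := Int.emod_nonneg k hM'.ne'
    have h2 := Int.emod_lt_of_pos k hM'
    have h3 : g (k % M) = g k := by
      have e : k % M + (k / M) * M = k := by
        have := Int.emod_add_mul_ediv k M
        linarith
      rw [← h.per_mul (k % M) (k / M), e]
    refine ⟨(k % M).toNat, ?_, ?_⟩
    · rw [Finset.mem_coe, Finset.mem_filter, Finset.mem_range]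
      have h4 : (((k % M).toNat : ℕ) : ℤ) = k % M := Int.toNat_of_nonneg h1
      refine ⟨by omega, ?_⟩
      rw [h4, h3, hk]
      exact hi
    · have h4 : (((k % M).toNat : ℕ) : ℤ) = k % M := Int.toNat_of_nonneg h1
      show g (((k % M).toNat : ℕ) : ℤ) = i
      rw [h4, h3, hk]
  · intro k hk
    rfl

/-- the sum over consecutive pairs of the cyclic list -/
theorem zip_sum {E : Type} [AddCommMonoid E] (h : Cyc M g) (hS : InG g S)
    (f : Fin n → Fin n → E) :
    (List.zipWith f (lst g M S) ((lst g M S).rotate 1)).sum = ∑ i ∈ S, f i (nxF g S i) := by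
  classical
  have hM := h.pos
  obtain ⟨ks, hks⟩ : ∃ ks, ks = (List.range M).filter (fun k : ℕ => decide (g (k : ℤ) ∈ S)) :=
    ⟨_, rfl⟩
  have hl : lst g M S = ks.map (fun k : ℕ => g (k : ℤ)) := by
    rw [hks]
    unfold lst
    rw [List.filter_map]
    rfl
  have hmem : ∀ k : ℕ, k ∈ ks ↔ k < M ∧ g (k : ℤ) ∈ S := by
    intro k
    rw [hks, List.mem_filter, List.mem_range, decide_eq_true_iff]
  have hsort : ks.Pairwise (· < ·) := by
    rw [hks]
    exact List.pairwise_lt_range.filter _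
  have hget : ∀ (i j : ℕ) (hi : i < ks.length) (hj : j < ks.length), i < j → ks[i] < ks[j] :=
    fun i j hi hj hij => List.pairwise_iff_getElem.1 hsort i j hi hj hij
  have hget' : ∀ (i j : ℕ) (hi : i < ks.length) (hj : j < ks.length), ks[i] < ks[j] → i < j := by
    intro i j hi hj hij
    by_contra hh
    rcases (not_lt.1 hh).lt_or_eq with h1 | h1
    · have := hget j i hj hi h1
      omega
    · subst h1
      omega
  -- the successor
  have hnext : ∀ (i : ℕ) (hi : i < ks.length), nxF g S (g ((ks[i] : ℕ) : ℤ)) =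
      g ((ks[(i + 1) % ks.length]'(Nat.mod_lt _ (by omega)) : ℕ) : ℤ) := by
    intro i hi
    have hi1 := (hmem _).1 (List.getElem_mem hi)
    by_cases hc : i + 1 < ks.length
    · have e : (i + 1) % ks.length = i + 1 := Nat.mod_eq_of_lt hc
      simp only [e]
      have hi2 := (hmem _).1 (List.getElem_mem hc)
      have hlt := hget i (i + 1) hi hc (by omega)
      refine nxF_eq h ⟨by exact_mod_cast hlt, hi1.2, hi2.2, ?_⟩
      intro j hj1 hj2 hj3
      obtain ⟨m, rfl⟩ : ∃ m : ℕ, j = m := ⟨j.toNat, by omega⟩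
      have hm : m ∈ ks := (hmem m).2 ⟨by omega, hj3⟩
      obtain ⟨t, ht, rfl⟩ := List.getElem_of_mem hm
      have t1 := hget' i t hi ht (by exact_mod_cast hj1)
      have t2 := hget' t (i + 1) ht hc (by exact_mod_cast hj2)
      omega
    · have e : (i + 1) % ks.length = 0 := by
        have : i + 1 = ks.length := by omega
        rw [this, Nat.mod_self]
      simp only [e]
      have h0 : 0 < ks.length := by omega
      have hi2 := (hmem _).1 (List.getElem_mem h0)
      rw [← h.per ((ks[0] : ℕ) : ℤ)]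
      refine nxF_eq h ⟨by omega, hi1.2, by rw [h.per]; exact hi2.2, ?_⟩
      intro j hj1 hj2 hj3
      by_cases hjM : j < M
      · obtain ⟨m, rfl⟩ : ∃ m : ℕ, j = m := ⟨j.toNat, by omega⟩
        have hm : m ∈ ks := (hmem m).2 ⟨by omega, hj3⟩
        obtain ⟨t, ht, rfl⟩ := List.getElem_of_mem hm
        have t1 := hget' i t hi ht (by exact_mod_cast hj1)
        omega
      · have hj4 : g (j - M) ∈ S := by
          rw [← h.per (j - M)]
          have e2 : j - M + M = j := by ring
          rw [e2]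
          exact hj3
        obtain ⟨m, hm0⟩ : ∃ m : ℕ, j - M = m := ⟨(j - M).toNat, by omega⟩
        rw [hm0] at hj4
        have hm : m ∈ ks := (hmem m).2 ⟨by omega, hj4⟩
        obtain ⟨t, ht, rfl⟩ := List.getElem_of_mem hm
        have := hget' t 0 ht h0 (by omega)
        omega
  have hz : List.zipWith f (lst g M S) ((lst g M S).rotate 1) =
      ks.map (fun k : ℕ => f (g (k : ℤ)) (nxF g S (g (k : ℤ)))) := by
    rw [hl]
    apply List.ext_getElem
    · simp
    · intro i h1 h2
      rw [List.getElem_zipWith, List.getElem_map, List.getElem_map, List.getElem_rotate]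
      have h3 : i < ks.length := by
        rw [List.length_map] at h2
        exact h2
      rw [hnext i h3]
      simp only [List.length_map, List.getElem_map]
  rw [hz, ← sum_period h hS (fun i => f i (nxF g S i)),
    sum_filter_list (fun k : ℕ => g (k : ℤ) ∈ S) (fun k : ℕ => f (g (k : ℤ)) (nxF g S (g (k : ℤ)))),
    hks]

end E5
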