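import Pool.Agent.Helper26.E5.GAP
import Pool.Agent.Helper26.E5.Cyc

/-! MP_efd95c: row EFF, effective half tangents. -/

set_option autoImplicit false

open Complex

noncomputable section

namespace E5

theorem tn_nonneg' (x y : ℂ) : 0 ≤ tn x y := by
  unfold tn
  positivity

theorem tn_le_of_lg (hL : ST_LG) {x y z w : ℂ} (h1 : dist x y < 2) (h2 : dist z w < 2)
    (h : lg x y ≤ lg z w) : tn x y ≤ tn z w := by
  obtain ⟨-, -, -, h4, -, h6, -⟩ := hL
  obtain ⟨a1, a2, -, -⟩ := h6 x y h1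
  obtain ⟨b1, b2, -, -⟩ := h6 z w h2
  have c1 := (h4 x y).1
  have c2 := (h4 z w).1
  rw [a2, b2]
  refine Real.strictMonoOn_tan.monotoneOn ⟨?_, ?_⟩ ⟨?_, ?_⟩ ?_ <;> linarith [Real.pi_pos]

section

variable {n : ℕ} {p : Fin n → ℂ} {M : ℕ} {g : ℤ → Fin n} {a b : ℤ → ℝ}

theorem hd_amono (hD : ST_D2) (hL : ST_LG) (h : HD p M g a b) : StrictMono a :=
  strictMono_int_of_lt_succ fun k => (h.le k).trans_lt (hd_step hD hL h k).1

theorem hd_bmono (hD : ST_D2) (hL : ST_LG) (h : HD p M g a b) : StrictMono b :=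
  strictMono_int_of_lt_succ fun k => (hd_step hD hL h k).1.trans_le (h.le (k + 1))

/-- the gap between successive indices of an admissible set -/
theorem adm_gap (hG : ST_GAP) (h : HD p M g a b) {S : Finset (Fin n)} (hA : Adm g a b S)
    {k l : ℤ} (hN : Nx g S k l) : a l - b k < Real.pi ∧ lg (p (g k)) (p (g l)) = a l - b k ∧
      p (g k) + AX.e (b k) = p (g l) + AX.e (a l) := by
  refine hG n p M g a b h k l hN.1 ?_
  intro j h1 h2
  by_contra hne
  exact hN.2.2.2 j h1 h2 (hA.1 j (lt_of_le_of_ne (h.le j) hne))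

theorem adm_nx_ne (hG : ST_GAP) (h : HD p M g a b) {S : Finset (Fin n)} (hA : Adm g a b S)
    {i : Fin n} (hi : i ∈ S) : nxF g S i ≠ i := by
  have hc := h.cyc
  obtain ⟨k, rfl⟩ := hA.2 i hi
  obtain ⟨l, hl, hle⟩ := nx_ex hc hi
  rw [nxF_eq hc hl]
  intro he
  obtain ⟨t, ht⟩ := hc.inj _ _ he
  have hM : (1 : ℤ) ≤ M := by exact_mod_cast hc.pos
  have h1 := hl.1
  have t1 : t = -1 := by
    have t2 : t < 0 := by
      by_contra hh
      rw [not_lt] at hh
      nlinarith
    have t3 : -2 < t := by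
      by_contra hh
      rw [not_lt] at hh
      nlinarith
    omega
  rw [t1] at ht
  have hlM : l = k + M := by linarith
  have hgap := (adm_gap hG h hA hl).1
  rw [hlM, h.aper] at hgap
  have := h.ltpi k
  linarith

theorem adm_pv_ne (hG : ST_GAP) (h : HD p M g a b) {S : Finset (Fin n)} (hA : Adm g a b S)
    {i : Fin n} (hi : i ∈ S) : pvF g S i ≠ i := by
  intro he
  have h1 := adm_nx_ne hG h hA (pvF_mem h.cyc hA.2 hi)
  rw [nxF_pvF h.cyc hA.2 hi, he] at h1
  exact h1 rfl

/-- the load of an index which is not in the list -/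
theorem adm_cgrad0 (h : HD p M g a b) {S : Finset (Fin n)} (hA : Adm g a b S)
    {i : Fin n} (hi : i ∉ S) : cgrad p (lst g M S) i = 0 := by
  unfold cgrad
  rw [zip_sum h.cyc hA.2]
  refine Finset.sum_eq_zero ?_
  intro u hu
  have h1 : u ≠ i := fun he => hi (he ▸ hu)
  have h2 : nxF g S u ≠ i := fun he => hi (he ▸ nxF_mem h.cyc hA.2 hu)
  rw [if_neg h1, if_neg h2]

/-- the load as a sum of two terms -/
theorem adm_cgrad (hG : ST_GAP) (h : HD p M g a b) {S : Finset (Fin n)} (hA : Adm g a b S)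
    {i : Fin n} (hi : i ∈ S) : cgrad p (lst g M S) i =
      (om (p i) (p (nxF g S i)) : ℂ) * (p i - p (nxF g S i)) +
        (om (p (pvF g S i)) (p i) : ℂ) * (p i - p (pvF g S i)) := by
  have hc := h.cyc
  unfold cgrad
  rw [zip_sum hc hA.2]
  have e : ∀ u ∈ S, (if u = i then (om (p u) (p (nxF g S u)) : ℂ) * (p u - p (nxF g S u))
      else if nxF g S u = i then (om (p u) (p (nxF g S u)) : ℂ) * (p (nxF g S u) - p u) else 0) =
      (if u = i then (om (p u) (p (nxF g S u)) : ℂ) * (p u - p (nxF g S u)) else 0) +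
      (if u = pvF g S i then (om (p u) (p i) : ℂ) * (p i - p u) else 0) := by
    intro u hu
    by_cases h1 : u = i
    · have h2 : u ≠ pvF g S i := fun he => adm_pv_ne hG h hA hi (by rw [← he, h1])
      rw [if_pos h1, if_pos h1, if_neg h2, add_zero]
    · rw [if_neg h1, if_neg h1, zero_add]
      by_cases h2 : u = pvF g S i
      · have h3 : nxF g S u = i := by rw [h2, nxF_pvF hc hA.2 hi]
        rw [if_pos h3, if_pos h2, h3]
      · have h3 : nxF g S u ≠ i := fun he => h2 (by rw [← he, pvF_nxF hc hA.2 hu])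
        rw [if_neg h3, if_neg h2]
  rw [Finset.sum_congr rfl e, Finset.sum_add_distrib, Finset.sum_ite_eq', Finset.sum_ite_eq',
    if_pos hi, if_pos (pvF_mem hc hA.2 hi)]

/-- the load with half tangents -/
theorem adm_load (hO : ST_ONARC) (hG : ST_GAP) (hD : ST_D2) (hL : ST_LG) (h : HD p M g a b)
    {S : Finset (Fin n)} (hA : Adm g a b S) {k : ℤ} (hi : g k ∈ S) :
    cgrad p (lst g M S) (g k) =
      AX.e (b k) * (I - (tn (p (g k)) (p (nxF g S (g k))) : ℂ)) +
      AX.e (a k) * (-I - (tn (p (pvF g S (g k))) (p (g k)) : ℂ)) := by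
  have hc := h.cyc
  rw [adm_cgrad hG h hA hi]
  obtain ⟨l, hl, -⟩ := nx_ex hc hi
  obtain ⟨k', hk', -⟩ := pv_ex hc hi
  rw [nxF_eq hc hl, pvF_eq hc hk']
  have hb := hd_bmono hD hL h
  have hlt : ∀ {s t : ℤ}, s < t → b s < a t := by
    intro s t hst
    have h1 := (hd_step hD hL h (t - 1)).1
    have e : t - 1 + 1 = t := by ring
    rw [e] at h1
    have h2 := hb.monotone (show s ≤ t - 1 by omega)
    linarith
  congr 1
  · obtain ⟨g1, g2, g3⟩ := adm_gap hG h hA hl
    obtain ⟨-, o2, o3, -⟩ := hO (p (g k) + AX.e (b k)) (b k) (a l) (hlt hl.1) (by linarith)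
    have e1 : p (g k) + AX.e (b k) - AX.e (b k) = p (g k) := by ring
    have e2 : p (g k) + AX.e (b k) - AX.e (a l) = p (g l) := by rw [g3]; ring
    rw [e1, e2] at o2 o3
    rw [o3, o2]
  · obtain ⟨g1, g2, g3⟩ := adm_gap hG h hA hk'
    obtain ⟨-, o2, -, o4⟩ := hO (p (g k') + AX.e (b k')) (b k') (a k) (hlt hk'.1) (by linarith)
    have e1 : p (g k') + AX.e (b k') - AX.e (b k') = p (g k') := by ring
    have e2 : p (g k') + AX.e (b k') - AX.e (a k) = p (g k) := by rw [g3]; ring
    rw [e1, e2] at o2 o4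
    rw [o4, o2]

end

/-- ROW EFF -/
theorem EFF (hO : ST_ONARC) (hG : ST_GAP) (hD : ST_D2) (hL : ST_LG) : ST_EFF := by
  classical
  intro n p M g a b θ h h0 h1 hadm
  have hc := h.cyc
  have hb := hd_bmono hD hL h
  have ha := hd_amono hD hL h
  have hd2 := hD n p h.int
  -- the sums
  obtain ⟨W, hW⟩ : ∃ W : Fin n → ℝ, ∀ i, W i = ∑ S, if i ∈ S then θ S else 0 :=
    ⟨_, fun _ => rfl⟩
  obtain ⟨AL, hAL⟩ : ∃ AL : Fin n → ℝ, ∀ i, AL i =
      ∑ S, if i ∈ S then θ S * tn (p i) (p (nxF g S i)) else 0 := ⟨_, fun _ => rfl⟩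
  obtain ⟨BE, hBE⟩ : ∃ BE : Fin n → ℝ, ∀ i, BE i =
      ∑ S, if i ∈ S then θ S * tn (p (pvF g S i)) (p i) else 0 := ⟨_, fun _ => rfl⟩
  have hW1 : ∀ i, W i ≤ 1 := by
    intro i
    rw [hW, ← h1]
    refine Finset.sum_le_sum ?_
    intro S _
    split_ifs
    · exact le_rfl
    · exact h0 S
  refine ⟨fun k => W (g k), fun k => AL (g k), fun k => BE (g k), ?_, ?_, ?_, ?_, ?_, ?_⟩
  · intro k
    simp only [h.gper, and_self]
  · intro k
    refine ⟨?_, hW1 _, ?_, ?_⟩
    · show 0 ≤ W (g k)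
      rw [hW]
      refine Finset.sum_nonneg ?_
      intro S _
      split_ifs
      · exact h0 S
      · exact le_rfl
    · show 0 ≤ AL (g k)
      rw [hAL]
      refine Finset.sum_nonneg ?_
      intro S _
      split_ifs
      · exact mul_nonneg (h0 S) (tn_nonneg' _ _)
      · exact le_rfl
    · show 0 ≤ BE (g k)
      rw [hBE]
      refine Finset.sum_nonneg ?_
      intro S _
      split_ifs
      · exact mul_nonneg (h0 S) (tn_nonneg' _ _)
      · exact le_rfl
  · intro k hk
    refine ⟨?_, ?_, ?_⟩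
    · show W (g k) = 1
      rw [hW, ← h1]
      refine Finset.sum_congr rfl ?_
      intro S _
      by_cases hS : θ S = 0
      · rw [hS]
        simp
      · rw [if_pos ((hadm S hS).1 k hk)]
    · show _ ≤ AL (g k)
      have e : tn (p (g k)) (p (g (k + 1))) = ∑ S, θ S * tn (p (g k)) (p (g (k + 1))) := by
        rw [← Finset.sum_mul, h1, one_mul]
      rw [e, hAL]
      refine Finset.sum_le_sum ?_
      intro S _
      by_cases hS : θ S = 0
      · rw [hS]
        simp
      · have hm := (hadm S hS).1 k hk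
        rw [if_pos hm]
        obtain ⟨l, hl, -⟩ := nx_ex hc hm
        rw [nxF_eq hc hl]
        refine mul_le_mul_of_nonneg_left ?_ (h0 S)
        refine tn_le_of_lg hL (hd2 _ _) (hd2 _ _) ?_
        have g2 := (adm_gap hG h (hadm S hS) hl).2.1
        have g3 := h.step k
        have g4 := ha.monotone (show k + 1 ≤ l from hl.1)
        rw [g2]
        linarith
    · show _ ≤ BE (g k)
      have e : tn (p (g (k - 1))) (p (g k)) = ∑ S, θ S * tn (p (g (k - 1))) (p (g k)) := by
        rw [← Finset.sum_mul, h1, one_mul]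
      rw [e, hBE]
      refine Finset.sum_le_sum ?_
      intro S _
      by_cases hS : θ S = 0
      · rw [hS]
        simp
      · have hm := (hadm S hS).1 k hk
        rw [if_pos hm]
        obtain ⟨l, hl, -⟩ := pv_ex hc hm
        rw [pvF_eq hc hl]
        refine mul_le_mul_of_nonneg_left ?_ (h0 S)
        refine tn_le_of_lg hL (hd2 _ _) (hd2 _ _) ?_
        have g2 := (adm_gap hG h (hadm S hS) hl).2.1
        have g3 := h.step (k - 1)
        have e2 : k - 1 + 1 = k := by ring
        rw [e2] at g3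
        have g4 := hb.monotone (show l ≤ k - 1 by have := hl.1; omega)
        rw [g2]
        linarith
  · intro k
    -- a common bound
    have hb1 : ∀ T : Finset (Fin n) → ℝ, ∀ f : Fin n → ℝ, (∀ j, 0 ≤ f j) →
        (∀ S, θ S ≠ 0 → g k ∈ S → ∃ j, j ≠ g k ∧ T S = f j) →
        ∃ j, j ≠ g k ∧ (∑ S, if g k ∈ S then θ S * T S else 0) ≤ f j := by
      intro T f hf hT
      have hne : (Finset.univ.erase (g k)).Nonempty :=
        ⟨g (k + 1), Finset.mem_erase.2 ⟨(hd_ne h k).symm, Finset.mem_univ _⟩⟩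
      obtain ⟨j, hj, hmax⟩ := Finset.exists_max_image _ f hne
      refine ⟨j, (Finset.mem_erase.1 hj).1, ?_⟩
      have h2 : (∑ S, if g k ∈ S then θ S * T S else 0) ≤ ∑ S, θ S * f j := by
        refine Finset.sum_le_sum ?_
        intro S _
        by_cases hS : θ S = 0
        · rw [hS]
          simp
        · by_cases hm : g k ∈ S
          · rw [if_pos hm]
            obtain ⟨j', hj', e⟩ := hT S hS hm
            rw [e]
            exact mul_le_mul_of_nonneg_left
              (hmax j' (Finset.mem_erase.2 ⟨hj', Finset.mem_univ _⟩)) (h0 S)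
          · rw [if_neg hm]
            exact mul_nonneg (h0 S) (hf j)
      rw [← Finset.sum_mul, h1, one_mul] at h2
      exact h2
    constructor
    · show ∃ j, j ≠ g k ∧ AL (g k) ≤ _
      rw [hAL]
      exact hb1 (fun S => tn (p (g k)) (p (nxF g S (g k)))) (fun j => tn (p (g k)) (p j))
        (fun j => tn_nonneg' _ _)
        (fun S hS hm => ⟨nxF g S (g k), adm_nx_ne hG h (hadm S hS) hm, rfl⟩)
    · show ∃ j, j ≠ g k ∧ BE (g k) ≤ _
      rw [hBE]
      exact hb1 (fun S => tn (p (pvF g S (g k))) (p (g k))) (fun j => tn (p (g k)) (p j))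
        (fun j => tn_nonneg' _ _)
        (fun S hS hm => ⟨pvF g S (g k), adm_pv_ne hG h (hadm S hS) hm, (hL.1 _ _).2.1⟩)
  · intro k
    show _ = AX.e (b k) * ((W (g k) : ℂ) * I - (AL (g k) : ℂ)) +
      AX.e (a k) * (-((W (g k) : ℂ) * I) - (BE (g k) : ℂ))
    rw [hW, hAL, hBE]
    simp only [Complex.ofReal_sum, Finset.mul_sum, Finset.sum_mul, ← Finset.sum_sub_distrib,
      ← Finset.sum_add_distrib, ← Finset.sum_neg_distrib]
    refine Finset.sum_congr rfl ?_
    intro S _
    by_cases hS : θ S = 0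
    · rw [hS]
      simp
    · by_cases hm : g k ∈ S
      · rw [adm_load hO hG hD hL h (hadm S hS) hm, if_pos hm, if_pos hm, if_pos hm]
        push_cast
        ring
      · rw [adm_cgrad0 h (hadm S hS) hm, if_neg hm, if_neg hm, if_neg hm]
        push_cast
        ring
  · show ∑ k ∈ Finset.range M, (AL (g (k : ℤ)) + BE (g (k : ℤ))) = _
    have e1 : ∀ k ∈ Finset.range M, AL (g (k : ℤ)) + BE (g (k : ℤ)) =
        ∑ S, θ S * (if g (k : ℤ) ∈ S then (tn (p (g (k : ℤ))) (p (nxF g S (g (k : ℤ)))) +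
          tn (p (pvF g S (g (k : ℤ)))) (p (g (k : ℤ)))) else 0) := by
      intro k _
      rw [hAL, hBE, ← Finset.sum_add_distrib]
      refine Finset.sum_congr rfl ?_
      intro S _
      split_ifs <;> ring
    rw [Finset.sum_congr rfl e1, Finset.sum_comm]
    refine Finset.sum_congr rfl ?_
    intro S _
    rw [← Finset.mul_sum]
    by_cases hS : θ S = 0
    · rw [hS]
      simp
    · congr 1
      have hA := hadm S hS
      rw [sum_period hc hA.2 (fun i => tn (p i) (p (nxF g S i)) + tn (p (pvF g S i)) (p i))]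
      unfold ctan
      rw [zip_sum hc hA.2, Finset.sum_add_distrib,
        sum_pvF hc hA.2 (fun i j => tn (p i) (p j)), ← Finset.mul_sum]
      ring

end E5
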