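import Pool.Agent.Helper71.E5.Stmts

/-! MP_efd95c: row GAP, passing over kinks. -/

set_option autoImplicit false

open Complex

noncomputable section

namespace E5

theorem gap_norm (θ : ℝ) : ‖AX.e θ‖ = 1 := by
  unfold AX.e
  exact Complex.norm_exp_ofReal_mul_I θ

theorem gap_re (θ : ℝ) : (AX.e θ).re = Real.cos θ := by
  unfold AX.e
  exact Complex.exp_ofReal_mul_I_re θ

theorem gap_im (θ : ℝ) : (AX.e θ).im = Real.sin θ := by
  unfold AX.e
  exact Complex.exp_ofReal_mul_I_im θ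

theorem gap_add (s t : ℝ) : AX.e (s + t) = AX.e s * AX.e t := by
  unfold AX.e
  rw [← Complex.exp_add]
  congr 1
  push_cast
  ring

/-- a point of the open disk with centre `x - e θ` is on the side of `e θ` -/
theorem gap_side {x z : ℂ} {θ : ℝ} (h : dist z (x - AX.e θ) < 1) :
    0 < ((x - z) * (starRingEnd ℂ) (AX.e θ)).re := by
  rw [Complex.dist_eq] at h
  have h2 : ‖z - (x - AX.e θ)‖ ^ 2 < 1 := by
    have h0 := norm_nonneg (z - (x - AX.e θ))
    nlinarith
  rw [Complex.sq_norm, Complex.normSq_apply] at h2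
  simp only [Complex.sub_re, Complex.sub_im, gap_re, gap_im] at h2
  simp only [Complex.mul_re, Complex.sub_re, Complex.sub_im, Complex.conj_re, Complex.conj_im,
    gap_re, gap_im]
  have h3 := Real.sin_sq_add_cos_sq θ
  nlinarith [sq_nonneg (z.re - x.re), sq_nonneg (z.im - x.im)]

/-- the direction of `v`, chosen near `θ` -/
theorem gap_dir {v : ℂ} {θ : ℝ} (h : 0 < (v * (starRingEnd ℂ) (AX.e θ)).re) :
    ∃ ψ : ℝ, ψ - Real.pi / 2 < θ ∧ θ < ψ + Real.pi / 2 ∧
      ∀ t : ℝ, 0 < (v * (starRingEnd ℂ) (AX.e t)).re → 0 < Real.cos (t - ψ) := by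
  set u := v * (starRingEnd ℂ) (AX.e θ) with hu
  have hu0 : u ≠ 0 := by
    intro h0
    rw [h0] at h
    simp at h
  have harg := Complex.abs_arg_lt_pi_div_two_iff.2 (Or.inl h)
  rw [abs_lt] at harg
  refine ⟨θ + u.arg, by linarith, by linarith, ?_⟩
  intro t ht
  have he : AX.e θ * (starRingEnd ℂ) (AX.e θ) = 1 := by
    rw [Complex.mul_conj, Complex.normSq_eq_norm_sq, gap_norm]
    norm_num
  have hv : v = (‖u‖ : ℂ) * AX.e (θ + u.arg) := by
    have h1 : v = u * AX.e θ := by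
      rw [hu, mul_assoc, mul_comm ((starRingEnd ℂ) (AX.e θ)), he, mul_one]
    have h2 : u = (‖u‖ : ℂ) * AX.e u.arg := by
      unfold AX.e
      exact (Complex.norm_mul_exp_arg_mul_I u).symm
    rw [h1, gap_add]
    nth_rw 1 [h2]
    ring
  rw [hv] at ht
  have h3 : ((‖u‖ : ℂ) * AX.e (θ + u.arg) * (starRingEnd ℂ) (AX.e t)).re =
      ‖u‖ * Real.cos (t - (θ + u.arg)) := by
    rw [mul_assoc, Complex.re_ofReal_mul, Complex.mul_re, Complex.conj_re, Complex.conj_im,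
      gap_re, gap_im, gap_re, gap_im, Real.cos_sub]
    ring
  rw [h3] at ht
  exact (pos_iff_pos_of_mul_pos ht).1 (norm_pos_iff.2 hu0)

theorem gap_window {ψ θ t : ℝ} (h1 : ψ - Real.pi / 2 < θ) (h2 : θ < ψ + Real.pi / 2)
    (h3 : θ < t) (h4 : t < θ + Real.pi) (h5 : 0 < Real.cos (t - ψ)) :
    ψ - Real.pi / 2 < t ∧ t < ψ + Real.pi / 2 := by
  refine ⟨by linarith, ?_⟩
  by_contra h6
  rw [not_lt] at h6
  have := Real.cos_nonpos_of_pi_div_two_le_of_le (x := t - ψ) (by linarith) (by linarith)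
  linarith

theorem hd_ne {n : ℕ} {c : Fin n → ℂ} {M : ℕ} {g : ℤ → Fin n} {a b : ℤ → ℝ} (h : HD c M g a b)
    (k : ℤ) : g k ≠ g (k + 1) := by
  intro he
  have h1 := h.ginj k (k + 1) he
  have h2 := h.two
  have h3 : (k + 1 - k : ℤ) = 1 := by ring
  rw [h3] at h1
  have h4 := Int.le_of_dvd one_pos h1
  have : (2 : ℤ) ≤ M := by exact_mod_cast h2
  omega

theorem hd_step {n : ℕ} {c : Fin n → ℂ} {M : ℕ} {g : ℤ → Fin n} {a b : ℤ → ℝ} (hD : ST_D2)
    (hL : ST_LG) (h : HD c M g a b) (k : ℤ) : b k < a (k + 1) ∧ a (k + 1) < b k + Real.pi := by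
  obtain ⟨-, -, -, -, h5, h6, -⟩ := hL
  have hne : c (g k) ≠ c (g (k + 1)) := fun he => hd_ne h k (h.inj he)
  have h1 := h5 _ _ hne
  have h2 := (h6 _ _ (hD n c h.int (g k) (g (k + 1)))).1
  have h3 := h.step k
  constructor <;> linarith

theorem GAP (hO : ST_ONARC) (hD : ST_D2) (hL : ST_LG) : ST_GAP := by
  intro n c M g a b h k l hkl hk
  obtain ⟨z, hz⟩ := h.int
  have hz1 : ∀ i, dist z (c i) < 1 := by
    intro i
    have h1 : AX.K 1 c ⊆ Metric.closedBall (c i) 1 := Set.iInter_subset _ i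
    have h2 := interior_mono h1 hz
    rw [interior_closedBall _ one_ne_zero] at h2
    exact h2
  obtain ⟨x, hx⟩ : ∃ x, x = c (g k) + AX.e (b k) := ⟨_, rfl⟩
  have hxc : ∀ (i : Fin n) (t : ℝ), x = c i + AX.e t → 0 < ((x - z) *
      (starRingEnd ℂ) (AX.e t)).re := by
    intro i t ht
    refine gap_side ?_
    have : x - AX.e t = c i := by rw [ht]; ring
    rw [this]
    exact hz1 i
  obtain ⟨ψ, w1, w2, hψ⟩ := gap_dir (hxc (g k) (b k) hx)
  -- induction over the number of steps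
  have key : ∀ m : ℕ, (∀ j, k < j → j < k + (m + 1 : ℕ) → a j = b j) →
      b k < a (k + (m + 1 : ℕ)) ∧ a (k + (m + 1 : ℕ)) < ψ + Real.pi / 2 ∧
        x = c (g (k + (m + 1 : ℕ))) + AX.e (a (k + (m + 1 : ℕ))) := by
    intro m
    induction m with
    | zero =>
      intro _
      have e : k + ((0 + 1 : ℕ) : ℤ) = k + 1 := by simp
      rw [e]
      obtain ⟨s1, s2⟩ := hd_step hD hL h k
      have hc : x = c (g (k + 1)) + AX.e (a (k + 1)) := by rw [hx, h.corner k]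
      exact ⟨s1, (gap_window w1 w2 s1 s2 (hψ _ (hxc _ _ hc))).2, hc⟩
    | succ m ih =>
      intro hm
      obtain ⟨i1, i2, i3⟩ := ih (fun j h1 h2 => hm j h1 (by push_cast at h2 ⊢; omega))
      have e : k + ((m + 1 + 1 : ℕ) : ℤ) = k + ((m + 1 : ℕ) : ℤ) + 1 := by push_cast; ring
      have hab := hm (k + ((m + 1 : ℕ) : ℤ)) (by push_cast; omega) (by push_cast; omega)
      rw [e]
      generalize k + ((m + 1 : ℕ) : ℤ) = j at *
      obtain ⟨s1, s2⟩ := hd_step hD hL h j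
      rw [← hab] at s1 s2
      have hc : x = c (g (j + 1)) + AX.e (a (j + 1)) := by rw [← h.corner j, ← hab, i3]
      exact ⟨by linarith, (gap_window (by linarith) i2 s1 s2 (hψ _ (hxc _ _ hc))).2, hc⟩
  obtain ⟨m, hm⟩ : ∃ m : ℕ, l = k + ((m + 1 : ℕ) : ℤ) := ⟨(l - k - 1).toNat, by omega⟩
  obtain ⟨k1, k2, k3⟩ := key m (by rw [← hm]; exact hk)
  rw [← hm] at k1 k2 k3
  have hpi : a l - b k < Real.pi := by linarith
  refine ⟨hpi, ?_, ?_⟩
  · have h1 := (hO x (b k) (a l) k1 (by linarith)).1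
    have e1 : x - AX.e (b k) = c (g k) := by rw [hx]; ring
    have e2 : x - AX.e (a l) = c (g l) := by rw [k3]; ring
    rw [e1, e2] at h1
    exact h1
  · rw [← hx, k3]

end E5
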