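import Pool.Agent.Helper71.E5.WStmts3

/-!
MP_efd95c_co, wheels, row TOR: the torque equations (imaginary parts of the equilibria).
-/

set_option autoImplicit false

open scoped MeasureTheory ENNReal Topology
open Complex

noncomputable section

namespace E5

theorem tor_e_re (t : ℝ) : (AX.e t).re = Real.cos t := by
  unfold AX.e; exact Complex.exp_ofReal_mul_I_re t

theorem tor_e_im (t : ℝ) : (AX.e t).im = Real.sin t := by
  unfold AX.e; exact Complex.exp_ofReal_mul_I_im t

theorem tor_sqrt (c : ℝ) : Real.sqrt (4 - c ^ 2) = 2 * Real.cos (Real.arcsin (c / 2)) := by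
  rw [Real.cos_arcsin]
  have h : (4 : ℝ) - c ^ 2 = 2 ^ 2 * (1 - (c / 2) ^ 2) := by ring
  rw [h, Real.sqrt_mul (by norm_num), Real.sqrt_sq (by norm_num)]

theorem omc_eq (r s θ : ℝ) : omc r s θ = 1 / (ch r s θ * Real.cos (hd r s θ)) := by
  unfold omc hd
  rw [tor_sqrt, show ch r s θ * (2 * Real.cos (Real.arcsin (ch r s θ / 2))) =
    2 * (ch r s θ * Real.cos (Real.arcsin (ch r s θ / 2))) by ring,
    ← div_div, div_self (two_ne_zero)]

theorem omc_tq (r s θ : ℝ) : omc r s θ * (r * s * Real.sin θ) = tq r s θ := by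
  rw [omc_eq]; unfold tq; rw [div_mul_eq_mul_div, one_mul]

theorem omc_tq' (r s θ : ℝ) : omc r s θ * (r * s * Real.sin θ) = tq s r θ := by
  have h : ch s r θ = ch r s θ := by unfold ch; congr 1; ring
  have h2 : hd s r θ = hd r s θ := by unfold hd; rw [h]
  rw [omc_tq]; unfold tq; rw [h, h2]; ring

theorem tq_symm (r s θ : ℝ) : tq r s θ = tq s r θ := by
  rw [← omc_tq, omc_tq']

theorem tq_2pi (r s a b : ℝ) (h : a + b = 2 * Real.pi) : tq r s a = - tq r s b := by
  have h0 : a = 2 * Real.pi - b := by linarith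
  have h1 : Real.cos a = Real.cos b := by rw [h0, Real.cos_two_pi_sub]
  have h2 : Real.sin a = - Real.sin b := by rw [h0, Real.sin_two_pi_sub]
  have h3 : ch r s a = ch r s b := by unfold ch; rw [h1]
  have h4 : hd r s a = hd r s b := by unfold hd; rw [h3]
  unfold tq; rw [h2, h3, h4]; ring

theorem TOR : ST_TOR := by
  intro ra rx ry rb Ra Rx Ry Rb b1 b2 b3 t1 t2 t3 t4 w0a w0x w0y w0b way wyx wxb wab χa χx χy χb
    D W
  have hs : t1 + t2 + t3 + t4 = 2 * Real.pi := D.p.ts
  have PA := congrArg Complex.im W.PA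
  have PB := congrArg Complex.im W.PB
  have PX := congrArg Complex.im W.PX
  have PY := congrArg Complex.im W.PY
  have QA := congrArg Complex.im W.QA
  have QB := congrArg Complex.im W.QB
  have QX := congrArg Complex.im W.QX
  have QY := congrArg Complex.im W.QY
  simp only [Complex.add_im, Complex.mul_im, Complex.sub_im, Complex.sub_re, Complex.mul_re,
    Complex.add_re, Complex.one_re, Complex.one_im, Complex.ofReal_re, Complex.ofReal_im,
    tor_e_re, tor_e_im, mul_zero, zero_mul, add_zero, zero_add, sub_zero, zero_sub,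
    Real.sin_neg, Real.cos_neg] at PA PB PX PY QA QB QX QY
  have k1 := omc_tq Ra Ry t1
  have k1' := omc_tq' Ry Ra t1
  have k2 := omc_tq Ry Rx t2
  have k2' := omc_tq' Rx Ry t2
  have k3 := omc_tq Rx Rb t3
  have k3' := omc_tq' Rb Rx t3
  have k4 := omc_tq Ra Rb t4
  have k4' := omc_tq' Rb Ra t4
  have k5 := omc_tq Ra Rx (t1 + t2)
  have k5' := omc_tq' Rx Ra (t1 + t2)
  have k6 := omc_tq Ry Rb (t2 + t3)
  have k6' := omc_tq' Rb Ry (t2 + t3)
  have l1 := omc_tq ra rx b1
  have l1' := omc_tq' rx ra b1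
  have l2 := omc_tq rx ry b2
  have l2' := omc_tq' ry rx b2
  have l3 := omc_tq ry rb b3
  have l3' := omc_tq' rb ry b3
  have e1 : tq Ry Rb (t1 + t4) = - tq Ry Rb (t2 + t3) := tq_2pi _ _ _ _ (by linarith)
  have e2 : tq Rx Ra (t3 + t4) = - tq Ra Rx (t1 + t2) := by
    rw [tq_symm Ra Rx]; exact tq_2pi _ _ _ _ (by linarith)
  refine ⟨⟨say Ra Rx Ry Rb t1 t2 t4 χa χx χy χb - way * Ra * Ry * Real.sin t1, rfl, ?_, ?_, ?_⟩,
    ?_, ?_, ?_, ?_⟩
  · unfold say syx; rw [e1]
    linear_combination Ry * PY - (1 - χy) * (1 - χx) * k2 +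
      (1 - χy) * (1 - χa) * k1' - (χx + χa) * k6
  · unfold say sxb; rw [e1, e2]
    linear_combination Ry * PY - (1 - χy) * (1 - χx) * k2 +
      (1 - χy) * (1 - χa) * k1' - (χx + χa) * k6 - Rx * PX + (1 - χx) * (1 - χy) * k2' -
      (1 - χx) * (1 - χb) * k3 + (χy + χb) * k5'
  · unfold say sab; rw [e1, e2]
    linear_combination (-Ra) * PA + (1 - χa) * (1 - χy) * k1 - (1 - χa) * (1 - χb) * k4 +
      (χy + χb) * k5
  · linear_combination ra * QA - l1
  · linear_combination rb * QB - l3'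
  · linear_combination rx * QX - l2 + l1'
  · linear_combination ry * QY - l2' + l3

end E5
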