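import Pool.Agent.Helper93.E5.VRows

/-! Alexander N <= 5 (MP_efd95c): the vertex lemma from (M1), (M2), (M2) strict, (K) and (V1). -/

set_option autoImplicit false

namespace E5

open Real

theorem vl_comm (e a b : ℝ) : N2 e a b = N2 e b a := by
  unfold N2
  ring

theorem vl_zero (a b : ℝ) : N2 0 a b = (a + b) ^ 2 := by
  unfold N2
  rw [cos_zero, sin_zero]
  ring

/-- both sides are common -/
theorem VL_common {eq ep a b x y : ℝ} (ha : 0 ≤ a) (hb : 0 ≤ b) (hx : 0 ≤ x) (hy : 0 ≤ y)
    (hq : 0 ≤ eq) (hqp : eq ≤ π) (hp : 0 ≤ ep) (ea : ep ≤ π - 2 * arctan a)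
    (eb : ep ≤ π - 2 * arctan b) (hN : N2 ep a b ≤ N2 eq x y) (hxa : x ≤ a) (hyb : y ≤ b) :
    ep + a + b ≤ eq + x + y := by
  by_contra hlt
  rw [not_le] at hlt
  have hab : ep + arctan a + arctan b ≤ π := by linarith
  rcases le_or_gt ((a - x) + (b - y)) eq with h | h
  · have h1 := M1 eq (a - x) x y hx hy (by linarith) (by linarith) hqp
    have h2 := M1 (eq - (a - x)) (b - y) y a hy ha (by linarith) (by linarith) (by linarith)
    rw [vl_comm (eq - (a - x)) y a, vl_comm _ _ a] at h2
    have e1 : x + (a - x) = a := by ring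
    have e2 : y + (b - y) = b := by ring
    rw [e1] at h1
    rw [e2] at h2
    have h3 := M2s (eq - (a - x) - (b - y)) ep a b (by linarith) (by linarith) ha hb hab
    linarith
  · have h1 := K eq x y hx hy hq hqp
    have h2 := M2 0 ep a b le_rfl hp ha hb hab
    rw [vl_zero] at h2
    have h3 : (eq + x + y) ^ 2 < (a + b) ^ 2 := by
      apply pow_lt_pow_left₀ (by linarith) (by linarith) (by norm_num)
    linarith

/-- a chain side with a large correction -/
theorem VL_big (hV1 : ST_V1) {eq ep a b x y : ℝ} (ha : 0 ≤ a) (hb : 0 ≤ b) (hy : 0 ≤ y)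
    (hq : 0 ≤ eq) (hqp : eq ≤ π) (hp : 0 ≤ ep) (ea : ep ≤ π - 2 * arctan a)
    (eb : ep ≤ π - 2 * arctan b) (ex : ep ≤ π - 2 * arctan x) (hN : N2 ep a b ≤ N2 eq x y)
    (hax : a < x) (hbig : ep < 2 * x - a) : ep + a + b ≤ eq + 2 * x + y := by
  have hx : 0 ≤ x := by linarith
  have hK := K eq x y hx hy hq hqp
  have hab : ep + arctan a + arctan b ≤ π := by linarith
  have hmono : ∀ z : ℝ, 0 ≤ z → z ^ 2 ≤ (eq + x + y) ^ 2 → z ≤ eq + x + y := by
    intro z hz h
    exact (abs_le_of_sq_le_sq' h (by linarith)).2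
  rcases le_or_gt a ep with h | h
  · have hx0 : arctan ((a + ep) / 2) ≤ arctan x := arctan_strictMono.monotone (by linarith)
    have h1 := hV1 a b ((a + ep) / 2) ep ha (by linarith) hb (by linarith) (by linarith) eb
    have e1 : ep - (2 * ((a + ep) / 2) - a) = 0 := by ring
    rw [e1, vl_zero] at h1
    have h2 := hmono ((a + ep) / 2 + b) (by linarith) (by linarith)
    linarith
  · have h1 := M2 0 ep a b le_rfl hp ha hb hab
    rw [vl_zero] at h1
    have h2 := hmono (a + b) (by linarith) (by linarith)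
    linarith

/-- the first side is common -/
theorem VL_half (hV1 : ST_V1) {eq ep a b x y d : ℝ} (ha : 0 ≤ a) (hb : 0 ≤ b) (hx : 0 ≤ x)
    (hy : 0 ≤ y) (hq : 0 ≤ eq) (hqp : eq ≤ π) (hp : 0 ≤ ep) (ea : ep ≤ π - 2 * arctan a)
    (eb : ep ≤ π - 2 * arctan b) (ey : ep ≤ π - 2 * arctan y) (hN : N2 ep a b ≤ N2 eq x y)
    (hxa : x ≤ a) (hd : y ≤ b ∧ d = y ∨ d = 2 * y) : ep + a + b ≤ eq + x + d := by
  have hdy : y ≤ d := by
    rcases hd with h | h
    · exact h.2.ge
    · linarith
  rcases le_or_gt y b with hyb | hyb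
  · have := VL_common ha hb hx hy hq hqp hp ea eb hN hxa hyb
    linarith
  · have hd2 : d = 2 * y := by
      rcases hd with h | h
      · exact absurd h.1 (not_le.2 hyb)
      · exact h
    rw [hd2]
    rcases le_or_gt (2 * y - b) ep with h | h
    · have h1 := hV1 b a y ep hb hyb.le ha h ey ea
      rw [vl_comm _ y a, vl_comm _ b a] at h1
      have h2 := VL_common (eq := eq) (ep := ep - (2 * y - b)) (a := a) (b := y) (x := x) (y := y)
        ha hy hx hy hq hqp (by linarith) (by linarith) (by linarith) (by linarith) hxa le_rfl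
      linarith
    · have hN' : N2 ep b a ≤ N2 eq y x := by
        rw [vl_comm ep b a, vl_comm eq y x]
        exact hN
      have h2 := VL_big hV1 hb ha hx hq hqp hp eb ea ey hN' hyb h
      linarith

/-- THE VERTEX LEMMA -/
theorem VL (hV1 : ST_V1) : ST_VL := by
  intro eq ep a b x y c d ha hb hx hy hq hqp hp ea eb ex ey hN hc hd
  have hdy : y ≤ d := by
    rcases hd with h | h
    · exact h.2.ge
    · linarith
  have hcx : x ≤ c := by
    rcases hc with h | h
    · exact h.2.ge
    · linarith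
  rcases le_or_gt x a with hxa | hxa
  · have := VL_half hV1 ha hb hx hy hq hqp hp ea eb ey hN hxa hd
    linarith
  · have hc2 : c = 2 * x := by
      rcases hc with h | h
      · exact absurd h.1 (not_le.2 hxa)
      · exact h
    rw [hc2]
    rcases le_or_gt (2 * x - a) ep with h | h
    · have h1 := hV1 a b x ep ha hxa.le hb h ex eb
      have h2 := VL_half hV1 (eq := eq) (ep := ep - (2 * x - a)) (a := x) (b := b) (x := x)
        (y := y) (d := d) hx hb hx hy hq hqp (by linarith) (by linarith) (by linarith)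
        (by linarith) (by linarith) le_rfl hd
      linarith
    · have h2 := VL_big hV1 ha hb hy hq hqp hp ea eb ex hN hxa h
      linarith

end E5
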