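import Pool.Agent.Helper26.E5.TOR

/-!
MP_efd95c_co, wheels, row WWR: the stresses of a maximal pair in the frames of the vertices.
-/

set_option autoImplicit false

open scoped MeasureTheory ENNReal Topology
open Complex

noncomputable section

namespace E5

theorem wwr_e_add (x y : ℝ) : AX.e (x + y) = AX.e x * AX.e y := by
  unfold AX.e
  rw [← Complex.exp_add]; congr 1; push_cast; ring

theorem wwr_e_zero : AX.e 0 = 1 := by
  unfold AX.e
  simp

theorem wwr_e_conj (x : ℝ) : (starRingEnd ℂ) (AX.e x) = AX.e (-x) := by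
  unfold AX.e
  rw [← Complex.exp_conj, map_mul, Complex.conj_ofReal, Complex.conj_I]
  congr 1; push_cast; ring

theorem wwr_e_inv (x : ℝ) : AX.e (-x) * AX.e x = 1 := by
  rw [← wwr_e_add, neg_add_cancel, wwr_e_zero]

theorem wwr_e_2pi (x y : ℝ) (h : x = y + 2 * Real.pi) : AX.e x = AX.e y := by
  rw [h]
  unfold AX.e
  rw [show ((y + 2 * Real.pi : ℝ) : ℂ) * I = (y : ℂ) * I + 2 * Real.pi * I by push_cast; ring,
    Complex.exp_periodic]

theorem wwr_dist (r s a b θ : ℝ) (h : Real.cos (b - a) = Real.cos θ) :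
    dist ((r : ℂ) * AX.e a) ((s : ℂ) * AX.e b) = ch r s θ := by
  unfold ch
  rw [dist_eq_norm, Complex.norm_def]
  congr 1
  rw [Complex.normSq_apply]
  simp only [Complex.sub_re, Complex.sub_im, Complex.mul_re, Complex.mul_im, Complex.ofReal_re,
    Complex.ofReal_im, tor_e_re, tor_e_im, zero_mul, sub_zero, add_zero]
  rw [← h, Real.cos_sub]
  have h1 := Real.sin_sq_add_cos_sq a
  have h2 := Real.sin_sq_add_cos_sq b
  linear_combination r ^ 2 * h1 + s ^ 2 * h2

theorem wwr_om (r s a b θ : ℝ) (h : Real.cos (b - a) = Real.cos θ) :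
    om ((r : ℂ) * AX.e a) ((s : ℂ) * AX.e b) = omc r s θ := by
  unfold om omc
  rw [wwr_dist r s a b θ h]

theorem wwr_norm_e (a : ℝ) : ‖AX.e a‖ = 1 := by
  unfold AX.e; exact Complex.norm_exp_ofReal_mul_I a

theorem wwr_dist0 (r a : ℝ) (hr : 0 < r) : dist ((r : ℂ) * AX.e a) 0 = r := by
  rw [dist_zero_right, norm_mul, wwr_norm_e, mul_one, Complex.norm_real, Real.norm_eq_abs,
    abs_of_pos hr]

theorem wwr_om0 (r a : ℝ) (hr : 0 < r) :
    ((om ((r : ℂ) * AX.e a) 0 : ℝ) : ℂ) * r = ((1 / Real.cos (h0 r) : ℝ) : ℂ) := by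
  have h : om ((r : ℂ) * AX.e a) 0 * r = 1 / Real.cos (h0 r) := by
    unfold om h0
    rw [wwr_dist0 r a hr, tor_sqrt]
    by_cases hc : Real.cos (Real.arcsin (r / 2)) = 0
    · rw [hc]; simp
    · field_simp
  rw [← h]; push_cast; ring

theorem wwr_om_symm (x y : ℂ) : om x y = om y x := by
  unfold om; rw [dist_comm]

/-- rotation of a vertex equation into the frame of the vertex -/
theorem wwr_rot (z r : ℝ) (s α A B : Fin 5 → ℝ) (q : Fin 5 → ℂ) (i : Fin 5)
    (hq : ∀ j, q j = (s j : ℂ) * AX.e (z + α j)) (hi : q i = (r : ℂ) * AX.e z)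
    (h : ∑ j, (A j : ℂ) * (q i - q j) = ∑ j, (B j : ℂ) * (q i - q j)) :
    ∑ j, (A j : ℂ) * ((r : ℂ) - (s j : ℂ) * AX.e (α j)) =
      ∑ j, (B j : ℂ) * ((r : ℂ) - (s j : ℂ) * AX.e (α j)) := by
  have key : ∀ C : Fin 5 → ℝ, ∑ j, (C j : ℂ) * ((r : ℂ) - (s j : ℂ) * AX.e (α j)) =
      AX.e (-z) * ∑ j, (C j : ℂ) * (q i - q j) := by
    intro C
    rw [Finset.mul_sum]
    refine Finset.sum_congr rfl fun j _ => ?_
    rw [hi, hq j, wwr_e_add]
    linear_combination (-(C j : ℂ) * ((r : ℂ) - (s j : ℂ) * AX.e (α j))) * wwr_e_inv z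
  rw [key, key, h]

theorem wwr_rotc (z r : ℝ) (s α A B : Fin 5 → ℝ) (q : Fin 5 → ℂ) (i : Fin 5)
    (hq : ∀ j, q j = (s j : ℂ) * AX.e (z - α j)) (hi : q i = (r : ℂ) * AX.e z)
    (h : ∑ j, (A j : ℂ) * (q i - q j) = ∑ j, (B j : ℂ) * (q i - q j)) :
    ∑ j, (A j : ℂ) * ((r : ℂ) - (s j : ℂ) * AX.e (α j)) =
      ∑ j, (B j : ℂ) * ((r : ℂ) - (s j : ℂ) * AX.e (α j)) := by
  have h1 := wwr_rot z r s (fun j => -α j) A B q i (by
    intro j; rw [hq j]; rfl) hi h
  have h2 := congrArg (starRingEnd ℂ) h1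
  simpa only [map_sum, map_mul, map_sub, Complex.conj_ofReal, wwr_e_conj, neg_neg] using h2

theorem WWR : ST_WWR := by
  intro p q W χ ra rx ry rb Ra Rx Ry Rb φ b1 b2 b3 ψ t1 t2 t3 t4 q0 q1 q2 q3 q4 p0 p1 p3 p2 p4
    DQ DP Wn Ws Wd Wc W12 W34 χ01 χa χx χy χb eqq eqp
  have hts := DP.ts
  have W21 : W 2 1 = 0 := by rw [Ws]; exact W12
  have W43 : W 4 3 = 0 := by rw [Ws]; exact W34
  -- cosines
  have cq12 : Real.cos ((φ + b1) - φ) = Real.cos b1 := by congr 1; ring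
  have cq13 : Real.cos ((φ + b1 + b2) - φ) = Real.cos (b1 + b2) := by congr 1; ring
  have cq14 : Real.cos ((φ + b1 + b2 + b3) - φ) = Real.cos (b1 + b2 + b3) := by congr 1; ring
  have cq23 : Real.cos ((φ + b1 + b2) - (φ + b1)) = Real.cos b2 := by congr 1; ring
  have cq24 : Real.cos ((φ + b1 + b2 + b3) - (φ + b1)) = Real.cos (b2 + b3) := by congr 1; ring
  have cq34 : Real.cos ((φ + b1 + b2 + b3) - (φ + b1 + b2)) = Real.cos b3 := by congr 1; ring
  have cp13 : Real.cos ((ψ + t1) - ψ) = Real.cos t1 := by congr 1; ring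
  have cp12 : Real.cos ((ψ + t1 + t2) - ψ) = Real.cos (t1 + t2) := by congr 1; ring
  have cp14 : Real.cos ((ψ + t1 + t2 + t3) - ψ) = Real.cos t4 := by
    rw [show (ψ + t1 + t2 + t3) - ψ = 2 * Real.pi - t4 by linarith, Real.cos_two_pi_sub]
  have cp32 : Real.cos ((ψ + t1 + t2) - (ψ + t1)) = Real.cos t2 := by congr 1; ring
  have cp34 : Real.cos ((ψ + t1 + t2 + t3) - (ψ + t1)) = Real.cos (t2 + t3) := by congr 1; ring
  have cp24 : Real.cos ((ψ + t1 + t2 + t3) - (ψ + t1 + t2)) = Real.cos t3 := by congr 1; ring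
  have flip : ∀ a b θ : ℝ, Real.cos (b - a) = Real.cos θ → Real.cos (a - b) = Real.cos θ := by
    intro a b θ h; rw [← Real.cos_neg, neg_sub, h]
  have chs : ∀ r s θ : ℝ, ch r s θ = ch s r θ := by
    intro r s θ; unfold ch; congr 1; ring
  -- weights
  have oq12 : om (q 1) (q 2) = omc ra rx b1 := by rw [q1, q2]; exact wwr_om _ _ _ _ _ cq12
  have oq21 : om (q 2) (q 1) = omc rx ra b1 := by
    rw [q1, q2]; exact wwr_om _ _ _ _ _ (flip _ _ _ cq12)
  have oq23 : om (q 2) (q 3) = omc rx ry b2 := by rw [q2, q3]; exact wwr_om _ _ _ _ _ cq23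
  have oq32 : om (q 3) (q 2) = omc ry rx b2 := by
    rw [q2, q3]; exact wwr_om _ _ _ _ _ (flip _ _ _ cq23)
  have oq34 : om (q 3) (q 4) = omc ry rb b3 := by rw [q3, q4]; exact wwr_om _ _ _ _ _ cq34
  have oq43 : om (q 4) (q 3) = omc rb ry b3 := by
    rw [q3, q4]; exact wwr_om _ _ _ _ _ (flip _ _ _ cq34)
  have oq10 : ((om (q 1) (q 0) : ℝ) : ℂ) * ra = ((1 / Real.cos (h0 ra) : ℝ) : ℂ) := by
    rw [q1, q0]; exact wwr_om0 ra φ DQ.ra0
  have oq40 : ((om (q 4) (q 0) : ℝ) : ℂ) * rb = ((1 / Real.cos (h0 rb) : ℝ) : ℂ) := by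
    rw [q4, q0]; exact wwr_om0 rb _ DQ.rb0
  have op13 : om (p 1) (p 3) = omc Ra Ry t1 := by rw [p1, p3]; exact wwr_om _ _ _ _ _ cp13
  have op31 : om (p 3) (p 1) = omc Ry Ra t1 := by
    rw [p1, p3]; exact wwr_om _ _ _ _ _ (flip _ _ _ cp13)
  have op12 : om (p 1) (p 2) = omc Ra Rx (t1 + t2) := by
    rw [p1, p2]; exact wwr_om _ _ _ _ _ cp12
  have op21 : om (p 2) (p 1) = omc Rx Ra (t1 + t2) := by
    rw [p1, p2]; exact wwr_om _ _ _ _ _ (flip _ _ _ cp12)
  have op14 : om (p 1) (p 4) = omc Ra Rb t4 := by rw [p1, p4]; exact wwr_om _ _ _ _ _ cp14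
  have op41 : om (p 4) (p 1) = omc Rb Ra t4 := by
    rw [p1, p4]; exact wwr_om _ _ _ _ _ (flip _ _ _ cp14)
  have op32 : om (p 3) (p 2) = omc Ry Rx t2 := by rw [p3, p2]; exact wwr_om _ _ _ _ _ cp32
  have op23 : om (p 2) (p 3) = omc Rx Ry t2 := by
    rw [p3, p2]; exact wwr_om _ _ _ _ _ (flip _ _ _ cp32)
  have op34 : om (p 3) (p 4) = omc Ry Rb (t2 + t3) := by
    rw [p3, p4]; exact wwr_om _ _ _ _ _ cp34
  have op43 : om (p 4) (p 3) = omc Rb Ry (t2 + t3) := by
    rw [p3, p4]; exact wwr_om _ _ _ _ _ (flip _ _ _ cp34)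
  have op24 : om (p 2) (p 4) = omc Rx Rb t3 := by rw [p2, p4]; exact wwr_om _ _ _ _ _ cp24
  have op42 : om (p 4) (p 2) = omc Rb Rx t3 := by
    rw [p2, p4]; exact wwr_om _ _ _ _ _ (flip _ _ _ cp24)
  -- rotated equations
  have E1 := wwr_rot φ ra ![0, ra, rx, ry, rb] ![0, 0, b1, b1 + b2, b1 + b2 + b3]
    (W 1) (KQ q 1) q 1 (by
      intro j; fin_cases j
      · simp [q0]
      · simp [q1]
      · simp [q2]
      · simp [q3, add_assoc]
      · simp [q4, add_assoc]) q1 (eqq 1)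
  have E2 := wwr_rot (φ + b1) rx ![0, ra, rx, ry, rb] ![0, -b1, 0, b2, b2 + b3]
    (W 2) (KQ q 2) q 2 (by
      intro j; fin_cases j
      · simp [q0]
      · simp [q1]
      · simp [q2]
      · simp [q3]
      · simp [q4, add_assoc]) q2 (eqq 2)
  have E3 := wwr_rotc (φ + b1 + b2) ry ![0, ra, rx, ry, rb] ![0, b1 + b2, b2, 0, -b3]
    (W 3) (KQ q 3) q 3 (by
      intro j; fin_cases j
      · simp [q0]
      · simp [q1, add_assoc]
      · simp [q2]
      · simp [q3]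
      · simp [q4]) q3 (eqq 3)
  have E4 := wwr_rotc (φ + b1 + b2 + b3) rb ![0, ra, rx, ry, rb]
    ![0, b1 + b2 + b3, b2 + b3, b3, 0] (W 4) (KQ q 4) q 4 (by
      intro j; fin_cases j
      · simp [q0]
      · simp [q1, add_assoc]
      · simp only [Fin.reduceFinMk, Matrix.cons_val]; rw [q2]; congr 2; ring
      · simp [q3]
      · simp [q4]) q4 (eqq 4)
  have E0 := wwr_rot φ 0 ![0, ra, rx, ry, rb] ![0, 0, b1, b1 + b2, b1 + b2 + b3]
    (W 0) (KQ q 0) q 0 (by
      intro j; fin_cases j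
      · simp [q0]
      · simp [q1]
      · simp [q2]
      · simp [q3, add_assoc]
      · simp [q4, add_assoc]) (by rw [q0]; simp) (eqq 0)
  have hp4 : ∀ z, z = ψ - t4 → p 4 = (Rb : ℂ) * AX.e z := by
    intro z hz; rw [p4]; congr 1; exact wwr_e_2pi _ _ (by linarith)
  have F1 := wwr_rot ψ Ra ![0, Ra, Rx, Ry, Rb] ![0, 0, t1 + t2, t1, -t4]
    (W 1) (KC p χ 1) p 1 (by
      intro j; fin_cases j
      · simp [p0]
      · simp [p1]
      · simp [p2, add_assoc]
      · simp [p3]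
      · simp only [Fin.reduceFinMk, Matrix.cons_val]; exact hp4 _ (by ring)) p1 (eqp 1)
  have F3 := wwr_rot (ψ + t1) Ry ![0, Ra, Rx, Ry, Rb] ![0, -t1, t2, 0, t2 + t3]
    (W 3) (KC p χ 3) p 3 (by
      intro j; fin_cases j
      · simp [p0]
      · simp [p1]
      · simp [p2]
      · simp [p3]
      · simp [p4, add_assoc]) p3 (eqp 3)
  have F2 := wwr_rotc (ψ + t1 + t2) Rx ![0, Ra, Rx, Ry, Rb] ![0, t1 + t2, 0, t2, -t3]
    (W 2) (KC p χ 2) p 2 (by
      intro j; fin_cases j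
      · simp [p0]
      · simp [p1, add_assoc]
      · simp [p2]
      · simp [p3]
      · simp [p4]) p2 (eqp 2)
  have F4 := wwr_rotc (ψ - t4) Rb ![0, Ra, Rx, Ry, Rb] ![0, -t4, t3, t2 + t3, 0]
    (W 4) (KC p χ 4) p 4 (by
      intro j; fin_cases j
      · simp [p0]
      · simp [p1]
      · simp only [Fin.reduceFinMk, Matrix.cons_val]; rw [p2]; congr 1
        exact wwr_e_2pi _ _ (by linarith)
      · simp only [Fin.reduceFinMk, Matrix.cons_val]; rw [p3]; congr 1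
        exact wwr_e_2pi _ _ (by linarith)
      · simp only [Fin.reduceFinMk, Matrix.cons_val]; exact hp4 _ (by ring)) (hp4 _ rfl) (eqp 4)
  have F0 := wwr_rot ψ 0 ![0, Ra, Rx, Ry, Rb] ![0, 0, t1 + t2, t1, -t4]
    (W 0) (KC p χ 0) p 0 (by
      intro j; fin_cases j
      · simp [p0]
      · simp [p1]
      · simp [p2, add_assoc]
      · simp [p3]
      · simp only [Fin.reduceFinMk, Matrix.cons_val]; exact hp4 _ (by ring))
      (by rw [p0]; simp) (eqp 0)
  simp only [Fin.sum_univ_five, Matrix.cons_val, Complex.ofReal_zero, zero_mul, sub_zero,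
    Wd, W12, W21, W34, W43, zero_sub] at E0 E1 E2 E3 E4 F0 F1 F2 F3 F4
  have kq00 : KQ q 0 0 = 0 := by unfold KQ; exact if_neg (by decide)
  have kq01 : KQ q 0 1 = om (q 0) (q 1) := by
    unfold KQ; exact if_pos (by decide)
  have kq02 : KQ q 0 2 = 0 := by unfold KQ; exact if_neg (by decide)
  have kq03 : KQ q 0 3 = 0 := by unfold KQ; exact if_neg (by decide)
  have kq04 : KQ q 0 4 = om (q 0) (q 4) := by
    unfold KQ; exact if_pos (by decide)
  have kq10 : KQ q 1 0 = om (q 1) (q 0) := by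
    unfold KQ; exact if_pos (by decide)
  have kq11 : KQ q 1 1 = 0 := by unfold KQ; exact if_neg (by decide)
  have kq12 : KQ q 1 2 = om (q 1) (q 2) := by
    unfold KQ; exact if_pos (by decide)
  have kq13 : KQ q 1 3 = 0 := by unfold KQ; exact if_neg (by decide)
  have kq14 : KQ q 1 4 = 0 := by unfold KQ; exact if_neg (by decide)
  have kq20 : KQ q 2 0 = 0 := by unfold KQ; exact if_neg (by decide)
  have kq21 : KQ q 2 1 = om (q 2) (q 1) := by
    unfold KQ; exact if_pos (by decide)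
  have kq22 : KQ q 2 2 = 0 := by unfold KQ; exact if_neg (by decide)
  have kq23 : KQ q 2 3 = om (q 2) (q 3) := by
    unfold KQ; exact if_pos (by decide)
  have kq24 : KQ q 2 4 = 0 := by unfold KQ; exact if_neg (by decide)
  have kq30 : KQ q 3 0 = 0 := by unfold KQ; exact if_neg (by decide)
  have kq31 : KQ q 3 1 = 0 := by unfold KQ; exact if_neg (by decide)
  have kq32 : KQ q 3 2 = om (q 3) (q 2) := by
    unfold KQ; exact if_pos (by decide)
  have kq33 : KQ q 3 3 = 0 := by unfold KQ; exact if_neg (by decide)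
  have kq34 : KQ q 3 4 = om (q 3) (q 4) := by
    unfold KQ; exact if_pos (by decide)
  have kq40 : KQ q 4 0 = om (q 4) (q 0) := by
    unfold KQ; exact if_pos (by decide)
  have kq41 : KQ q 4 1 = 0 := by unfold KQ; exact if_neg (by decide)
  have kq42 : KQ q 4 2 = 0 := by unfold KQ; exact if_neg (by decide)
  have kq43 : KQ q 4 3 = om (q 4) (q 3) := by
    unfold KQ; exact if_pos (by decide)
  have kq44 : KQ q 4 4 = 0 := by unfold KQ; exact if_neg (by decide)
  have kc00 : KC p χ 0 0 = 0 := by unfold KC; exact if_pos (by decide)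
  have kc01 : KC p χ 0 1 = 0 := by unfold KC; exact if_pos (by decide)
  have kc02 : KC p χ 0 2 = 0 := by unfold KC; exact if_pos (by decide)
  have kc03 : KC p χ 0 3 = 0 := by unfold KC; exact if_pos (by decide)
  have kc04 : KC p χ 0 4 = 0 := by unfold KC; exact if_pos (by decide)
  have kc10 : KC p χ 1 0 = 0 := by unfold KC; exact if_pos (by decide)
  have kc11 : KC p χ 1 1 = 0 := by unfold KC; exact if_pos (by decide)
  have kc12 : KC p χ 1 2 = (χ 3 + χ 4) * om (p 1) (p 2) := by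
    unfold KC; rw [if_neg (by decide), if_pos (by decide)]
  have kc13 : KC p χ 1 3 = (1 - χ 1) * (1 - χ 3) * om (p 1) (p 3) := by
    unfold KC; rw [if_neg (by decide), if_neg (by decide), if_neg (by decide)]
  have kc14 : KC p χ 1 4 = (1 - χ 1) * (1 - χ 4) * om (p 1) (p 4) := by
    unfold KC; rw [if_neg (by decide), if_neg (by decide), if_neg (by decide)]
  have kc20 : KC p χ 2 0 = 0 := by unfold KC; exact if_pos (by decide)
  have kc21 : KC p χ 2 1 = (χ 3 + χ 4) * om (p 2) (p 1) := by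
    unfold KC; rw [if_neg (by decide), if_pos (by decide)]
  have kc22 : KC p χ 2 2 = 0 := by unfold KC; exact if_pos (by decide)
  have kc23 : KC p χ 2 3 = (1 - χ 2) * (1 - χ 3) * om (p 2) (p 3) := by
    unfold KC; rw [if_neg (by decide), if_neg (by decide), if_neg (by decide)]
  have kc24 : KC p χ 2 4 = (1 - χ 2) * (1 - χ 4) * om (p 2) (p 4) := by
    unfold KC; rw [if_neg (by decide), if_neg (by decide), if_neg (by decide)]
  have kc30 : KC p χ 3 0 = 0 := by unfold KC; exact if_pos (by decide)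
  have kc31 : KC p χ 3 1 = (1 - χ 3) * (1 - χ 1) * om (p 3) (p 1) := by
    unfold KC; rw [if_neg (by decide), if_neg (by decide), if_neg (by decide)]
  have kc32 : KC p χ 3 2 = (1 - χ 3) * (1 - χ 2) * om (p 3) (p 2) := by
    unfold KC; rw [if_neg (by decide), if_neg (by decide), if_neg (by decide)]
  have kc33 : KC p χ 3 3 = 0 := by unfold KC; exact if_pos (by decide)
  have kc34 : KC p χ 3 4 = (χ 1 + χ 2) * om (p 3) (p 4) := by
    unfold KC; rw [if_neg (by decide), if_neg (by decide), if_pos (by decide)]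
  have kc40 : KC p χ 4 0 = 0 := by unfold KC; exact if_pos (by decide)
  have kc41 : KC p χ 4 1 = (1 - χ 4) * (1 - χ 1) * om (p 4) (p 1) := by
    unfold KC; rw [if_neg (by decide), if_neg (by decide), if_neg (by decide)]
  have kc42 : KC p χ 4 2 = (1 - χ 4) * (1 - χ 2) * om (p 4) (p 2) := by
    unfold KC; rw [if_neg (by decide), if_neg (by decide), if_neg (by decide)]
  have kc43 : KC p χ 4 3 = (χ 1 + χ 2) * om (p 4) (p 3) := by
    unfold KC; rw [if_neg (by decide), if_neg (by decide), if_pos (by decide)]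
  have kc44 : KC p χ 4 4 = 0 := by unfold KC; exact if_pos (by decide)
  rw [kq00, kq01, kq02, kq03, kq04] at E0
  rw [kq10, kq11, kq12, kq13, kq14, oq12] at E1
  rw [kq20, kq21, kq22, kq23, kq24, oq21, oq23] at E2
  rw [kq30, kq31, kq32, kq33, kq34, oq32, oq34] at E3
  rw [kq40, kq41, kq42, kq43, kq44, oq43] at E4
  rw [kc00, kc01, kc02, kc03, kc04] at F0
  rw [kc10, kc11, kc12, kc13, kc14, op12, op13, op14] at F1
  rw [kc20, kc21, kc22, kc23, kc24, op21, op23, op24] at F2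
  rw [kc30, kc31, kc32, kc33, kc34, op31, op32, op34] at F3
  rw [kc40, kc41, kc42, kc43, kc44, op41, op42, op43] at F4
  push_cast at E0 E1 E2 E3 E4 F0 F1 F2 F3 F4 oq10 oq40
  have e0 := wwr_e_zero
  refine ⟨Wn _ _, Wn _ _, Wn _ _, Wn _ _, Wn _ _, Wn _ _, Wn _ _, Wn _ _, ?_, ?_, ?_, ?_,
    ?_, ?_, ?_, ?_, χ01 1, χ01 2, χ01 3, χ01 4, χa, χx, χy, χb, ?_, ?_, ?_, ?_, ?_, ?_, ?_, ?_, ?_,
    ?_⟩
  · intro h; have := Wc _ _ h
    rw [q1, q0, p1, p0, wwr_dist0 _ _ DQ.ra0, wwr_dist0 _ _ DP.Ra0] at this; exact this.symm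
  · intro h; have := Wc _ _ h
    rw [q2, q0, p2, p0, wwr_dist0 _ _ DQ.rx0, wwr_dist0 _ _ DP.Rx0] at this; exact this.symm
  · intro h; have := Wc _ _ h
    rw [q3, q0, p3, p0, wwr_dist0 _ _ DQ.ry0, wwr_dist0 _ _ DP.Ry0] at this; exact this.symm
  · intro h; have := Wc _ _ h
    rw [q4, q0, p4, p0, wwr_dist0 _ _ DQ.rb0, wwr_dist0 _ _ DP.Rb0] at this; exact this.symm
  · intro h; have := Wc _ _ h
    rw [q1, q3, p1, p3, wwr_dist _ _ _ _ _ cq13, wwr_dist _ _ _ _ _ cp13] at this; exact this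
  · intro h; have := Wc _ _ h
    rw [q2, q3, p2, p3, wwr_dist _ _ _ _ _ (flip _ _ _ cq23),
      wwr_dist _ _ _ _ _ cp32] at this; exact this
  · intro h; have := Wc _ _ h
    rw [q2, q4, p2, p4, wwr_dist _ _ _ _ _ cq24, wwr_dist _ _ _ _ _ cp24] at this; exact this
  · intro h; have := Wc _ _ h
    rw [q1, q4, p1, p4, wwr_dist _ _ _ _ _ cq14, wwr_dist _ _ _ _ _ cp14] at this; exact this
  · push_cast; linear_combination E1 + oq10
  · rw [Ws 2 4, Ws 1 4]; push_cast; linear_combination E4 + oq40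
  · rw [Ws 3 2]; push_cast; linear_combination E2
  · rw [Ws 1 3]; push_cast; linear_combination E3
  · rw [Ws 1 0, Ws 2 0, Ws 3 0, Ws 4 0]; push_cast
    rw [wwr_om_symm (q 0) (q 1), wwr_om_symm (q 0) (q 4), e0] at E0
    linear_combination (-1 : ℂ) * E0 + oq10 + AX.e (b1 + b2 + b3) * oq40
  · push_cast; linear_combination F1
  · rw [Ws 2 4, Ws 1 4]; push_cast; linear_combination F4
  · rw [Ws 3 2]; push_cast; linear_combination F2
  · rw [Ws 1 3]; push_cast; linear_combination F3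
  · rw [Ws 1 0, Ws 2 0, Ws 3 0, Ws 4 0]; push_cast
    rw [e0] at F0
    linear_combination (-1 : ℂ) * F0

end E5
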